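import Pool.Agent.R443.Rank2

/-!
# Parity of rank statistics on partitions into two part sizes
-/

set_option autoImplicit false

namespace Pool.Agent.Results.MP_cd2397_nt.RankParity

open Finset Pool.Agent.R443

/-- The data of a partition `(l1 ^ m1, l2 ^ m2)` in frequency notation. -/
structure Freq where
  /-- the larger part size -/
  l1 : ℕ
  /-- the multiplicity of the larger part size -/
  m1 : ℕ
  /-- the smaller part size -/
  l2 : ℕ
  /-- the multiplicity of the smaller part size -/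
  m2 : ℕ

/-- The set of the partitions of `N` into exactly two part sizes. -/
def P2 (N : ℕ) : Set Freq :=
  {t | 1 ≤ t.l2 ∧ t.l2 < t.l1 ∧ 1 ≤ t.m1 ∧ 1 ≤ t.m2 ∧ t.l1 * t.m1 + t.l2 * t.m2 = N}

/-- Dyson's rank: the largest part minus the number of parts. -/
def rk (t : Freq) : ℤ := t.l1 - t.m1 - t.m2

/-- The statistic `l1 + l2 - 2 m1 - m2`. -/
def rk2 (t : Freq) : ℤ := t.l1 + t.l2 - 2 * t.m1 - t.m2

/-- The number of `t` in `P2 N` with `s t ≡ ε (mod 2)`. -/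
noncomputable def count (s : Freq → ℤ) (ε : ℤ) (N : ℕ) : ℕ :=
  {t : Freq | t ∈ P2 N ∧ s t ≡ ε [ZMOD 2]}.ncard

/-- The five pairs `(A, B)`. -/
def S : Finset (ℕ × ℕ) := {(16, 14), (36, 30), (72, 42), (196, 70), (252, 114)}

/-- passage from pairs of pairs to frequency data -/
def toFreq (q : (ℕ × ℕ) × (ℕ × ℕ)) : Freq := ⟨q.1.1, q.1.2, q.2.1, q.2.2⟩

theorem toFreq_injective : Function.Injective toFreq := by
  rintro ⟨⟨a, b⟩, ⟨c, d⟩⟩ ⟨⟨a', b'⟩, ⟨c', d'⟩⟩ h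
  simp only [toFreq, Freq.mk.injEq] at h
  obtain ⟨rfl, rfl, rfl, rfl⟩ := h
  rfl

theorem count_eq (s : Freq → ℤ) (ε : ℤ) (N : ℕ) :
    count s ε N = ((Nu2.F N).filter (fun q => s (toFreq q) ≡ ε [ZMOD 2])).card := by
  classical
  unfold count
  rw [← Set.ncard_coe_finset, ← Set.ncard_image_of_injective _ toFreq_injective]
  congr 1
  ext ⟨a, b, c, d⟩
  simp only [Set.mem_ofPred, Set.mem_image, coe_filter, Prod.exists]
  constructor
  · rintro ⟨⟨h1, h2, h3, h4, h5⟩, h6⟩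
    refine ⟨a, b, c, d, ⟨?_, h6⟩, rfl⟩
    rw [Nu2.mem_F]
    simp only at h1 h2 h3 h4 h5
    exact ⟨⟨by omega, h3, h1, h4, h5⟩, h2⟩
  · rintro ⟨a', b', c', d', ⟨h1, h2⟩, h3⟩
    rw [← h3]
    rw [Nu2.mem_F] at h1
    exact ⟨⟨h1.1.2.2.1, h1.2, h1.1.2.1, h1.1.2.2.2.1, h1.1.2.2.2.2⟩, h2⟩

theorem count_rk_zero (N : ℕ) : count rk 0 N = Nu2.K1 N := by
  rw [count_eq]
  unfold Nu2.K1
  congr 1
  apply filter_congr
  rintro ⟨⟨a, b⟩, ⟨c, d⟩⟩ _
  simp only [rk, toFreq, Int.ModEq]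
  omega

theorem count_rk2_zero (N : ℕ) : count rk2 0 N = Nu2.K2 N := by
  rw [count_eq]
  unfold Nu2.K2
  congr 1
  apply filter_congr
  rintro ⟨⟨a, b⟩, ⟨c, d⟩⟩ _
  simp only [rk2, toFreq, Int.ModEq]
  omega

theorem count_add (s : Freq → ℤ) (N : ℕ) : count s 0 N + count s 1 N = (Nu2.F N).card := by
  rw [count_eq, count_eq]
  rw [← Finset.card_filter_add_card_filter_not (s := Nu2.F N)
    (fun q => s (toFreq q) ≡ 0 [ZMOD 2])]
  congr 2
  apply filter_congr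
  intro q _
  simp only [Int.ModEq]
  omega

/-- The three facts needed in each progression, from the facts for an odd prime `p`. -/
theorem of_prime {p b N : ℕ} (hp : p.Prime) (hp4 : p % 4 = 3) (hb : b % 2 = 1) (hpb : ¬ p ∣ b)
    (hs : ∀ x : ℕ, x * x ≠ b)
    (h0 : ∀ x y : ZMod p, x * x + y * y = 0 → x = 0 ∧ y = 0)
    (hW : (((Nu2.W (p * b)).card : ℕ) : ZMod 2) = 0) (hN : N = 2 * (p * b)) :
    (4 ∣ count rk2 0 N ∧ 4 ∣ count rk2 1 N) ∧ (4 ∣ count rk 0 N ∧ 4 ∣ count rk 1 N) := by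
  obtain ⟨h1, h2, h3⟩ := Nu2.prime_case hp hp4 hb hpb hs h0 hW
  rw [← hN] at h1 h2 h3
  have h4 := count_add rk N
  have h5 := count_add rk2 N
  rw [count_rk_zero] at h4 ⊢
  rw [count_rk2_zero] at h5 ⊢
  omega

theorem sq_mod_seven (x : ℕ) : x * x % 7 = 0 ∨ x * x % 7 = 1 ∨ x * x % 7 = 2 ∨ x * x % 7 = 4 := by
  have h : x % 7 = 0 ∨ x % 7 = 1 ∨ x % 7 = 2 ∨ x % 7 = 3 ∨ x % 7 = 4 ∨ x % 7 = 5 ∨ x % 7 = 6 := by
    omega
  rcases h with h | h | h | h | h | h | h <;> simp [Nat.mul_mod, h]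

theorem sq_mod_four (x : ℕ) : x * x % 4 = 0 ∨ x * x % 4 = 1 := by
  have h : x % 4 = 0 ∨ x % 4 = 1 ∨ x % 4 = 2 ∨ x % 4 = 3 := by omega
  rcases h with h | h | h | h <;> simp [Nat.mul_mod, h]

theorem zmod3 : ∀ x y : ZMod 3, x * x + y * y = 0 → x = 0 ∧ y = 0 := by decide

theorem zmod7 : ∀ x y : ZMod 7, x * x + y * y = 0 → x = 0 ∧ y = 0 := by decide

theorem zmod7' : ∀ x y : ZMod 7, 2 * (x * x) + y * y = 0 → x = 0 ∧ y = 0 := by decide

theorem zmod8 : ∀ x y : ZMod 8, 2 * (x * x) + y * y ≠ 7 := by decide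

theorem zmod8' : ∀ x y : ZMod 8, x * y = 7 → x + y = 0 := by decide

theorem zmod16 : ∀ x y : ZMod 16, x * x + y * y ≠ 14 := by decide

/-- the multiples of six -/
theorem case_three {b : ℕ} (hb : b % 2 = 1) (hb3 : b % 3 ≠ 0) (hs : ∀ x : ℕ, x * x ≠ b) {N : ℕ}
    (hN : N = 6 * b) :
    (4 ∣ count rk2 0 N ∧ 4 ∣ count rk2 1 N) ∧ (4 ∣ count rk 0 N ∧ 4 ∣ count rk 1 N) :=
  of_prime Nat.prime_three (by norm_num) hb (by omega) hs zmod3 (Nu2.W_three hb hb3 hs)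
    (by omega)

theorem case_36 (n : ℕ) :
    (4 ∣ count rk2 0 (36 * n + 30) ∧ 4 ∣ count rk2 1 (36 * n + 30)) ∧
      (4 ∣ count rk 0 (36 * n + 30) ∧ 4 ∣ count rk 1 (36 * n + 30)) := by
  apply case_three (b := 6 * n + 5) (by omega) (by omega) _ (by omega)
  intro x hx
  have := Nu2.sq_mod_three x
  omega

theorem case_72 (n : ℕ) :
    (4 ∣ count rk2 0 (72 * n + 42) ∧ 4 ∣ count rk2 1 (72 * n + 42)) ∧
      (4 ∣ count rk 0 (72 * n + 42) ∧ 4 ∣ count rk 1 (72 * n + 42)) := by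
  apply case_three (b := 12 * n + 7) (by omega) (by omega) _ (by omega)
  intro x hx
  have := sq_mod_four x
  omega

theorem case_252 (n : ℕ) :
    (4 ∣ count rk2 0 (252 * n + 114) ∧ 4 ∣ count rk2 1 (252 * n + 114)) ∧
      (4 ∣ count rk 0 (252 * n + 114) ∧ 4 ∣ count rk 1 (252 * n + 114)) := by
  apply case_three (b := 42 * n + 19) (by omega) (by omega) _ (by omega)
  intro x hx
  have := sq_mod_seven x
  omega

theorem case_196 (n : ℕ) :
    (4 ∣ count rk2 0 (196 * n + 70) ∧ 4 ∣ count rk2 1 (196 * n + 70)) ∧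
      (4 ∣ count rk 0 (196 * n + 70) ∧ 4 ∣ count rk 1 (196 * n + 70)) := by
  refine of_prime (p := 7) (b := 14 * n + 5) (by norm_num) (by norm_num) (by omega) (by omega)
    ?_ zmod7 ?_ (by omega)
  · intro x hx
    have := sq_mod_seven x
    omega
  · apply Nu2.W_empty
    intro x y _ _ h
    have h3 : ((2 * (x * x) + y * y : ℕ) : ZMod 7) = 0 := by
      rw [h, ZMod.natCast_eq_zero_iff]
      exact dvd_mul_right _ _
    push_cast at h3
    obtain ⟨h4, h5⟩ := zmod7' _ _ h3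
    rw [ZMod.natCast_eq_zero_iff] at h4 h5
    obtain ⟨u, rfl⟩ := h4
    obtain ⟨v, rfl⟩ := h5
    have e : 2 * (7 * u * (7 * u)) + 7 * v * (7 * v) = 7 * (7 * (2 * (u * u) + v * v)) := by ring
    omega

theorem case_16 (n : ℕ) :
    4 ∣ count rk2 0 (16 * n + 14) ∧ 4 ∣ count rk2 1 (16 * n + 14) := by
  have hM : (8 * n + 7) % 2 = 1 := by omega
  have hsq : ∀ x : ℕ, x * x ≠ 8 * n + 7 := by
    intro x hx
    have := sq_mod_four x
    omega
  have hns : ∀ x y : ℕ, 1 ≤ x → 1 ≤ y → x * x + y * y ≠ 2 * (8 * n + 7) := by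
    intro x y _ _ h
    apply zmod16 (x : ZMod 16) (y : ZMod 16)
    have h1 : ((x * x + y * y : ℕ) : ZMod 16) = ((14 : ℕ) : ZMod 16) := by
      rw [h, ZMod.natCast_eq_natCast_iff]
      unfold Nat.ModEq
      omega
    push_cast at h1
    exact h1
  have hW : (((Nu2.W (8 * n + 7)).card : ℕ) : ZMod 2) = 0 := by
    apply Nu2.W_empty
    intro x y _ _ h
    apply zmod8 (x : ZMod 8) (y : ZMod 8)
    have h1 : ((2 * (x * x) + y * y : ℕ) : ZMod 8) = ((7 : ℕ) : ZMod 8) := by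
      rw [h, ZMod.natCast_eq_natCast_iff]
      unfold Nat.ModEq
      omega
    push_cast at h1
    exact h1
  have hσ1 : 8 ∣ ∑ a ∈ (8 * n + 7).divisors, a := by
    apply Nu2.sum_divisors_zmod (by omega) hsq
    intro a b hab
    apply zmod8'
    have h1 : ((a * b : ℕ) : ZMod 8) = ((7 : ℕ) : ZMod 8) := by
      rw [hab, ZMod.natCast_eq_natCast_iff]
      unfold Nat.ModEq
      omega
    push_cast at h1
    exact h1
  have hσ : 8 ∣ ∑ a ∈ (2 * (8 * n + 7)).divisors, a := by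
    rw [Nu2.sigma_prime_mul Nat.prime_two (by omega)]
    exact Dvd.dvd.mul_left hσ1 _
  have hs0 : Nu2.s (8 * n + 7) = 0 := Nu2.s_eq_zero (fun x _ => hsq x)
  have hce := Nu2.card_eq (8 * n + 7)
  have hDc := Nu2.D_count hM
  obtain ⟨h1, h2, _⟩ := Nu2.main_dvd hM hns hσ hW (by omega)
  have e : 16 * n + 14 = 2 * (8 * n + 7) := by ring
  rw [e]
  have h5 := count_add rk2 (2 * (8 * n + 7))
  rw [count_rk2_zero] at h5 ⊢
  omega

/-- Both parts of the question have a positive answer. -/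
theorem result :
    (∀ p ∈ S, ∀ n : ℕ,
      4 ∣ count rk2 0 (p.1 * n + p.2) ∧ 4 ∣ count rk2 1 (p.1 * n + p.2)) ∧
    (∀ p ∈ S \ {(16, 14)}, ∀ n : ℕ,
      4 ∣ count rk 0 (p.1 * n + p.2) ∧ 4 ∣ count rk 1 (p.1 * n + p.2)) := by
  constructor
  · intro p hp n
    simp only [S, mem_insert, mem_singleton] at hp
    rcases hp with rfl | rfl | rfl | rfl | rfl
    · exact case_16 n
    · exact (case_36 n).1
    · exact (case_72 n).1
    · exact (case_196 n).1
    · exact (case_252 n).1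
  · intro p hp n
    rw [mem_sdiff] at hp
    obtain ⟨hp, hp2⟩ := hp
    simp only [S, mem_insert, mem_singleton] at hp hp2
    rcases hp with rfl | rfl | rfl | rfl | rfl
    · exact absurd rfl hp2
    · exact (case_36 n).2
    · exact (case_72 n).2
    · exact (case_196 n).2
    · exact (case_252 n).2

end Pool.Agent.Results.MP_cd2397_nt.RankParity
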